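import Mathlib

set_option autoImplicit false

namespace Pool.Agent.Results.MP_df2171_co.No

/-- Clopen subsets of a closure space. -/
def Clop {P : Type} (φ : ClosureOperator (Set P)) : Set (Set P) :=
  {a | φ a = a ∧ φ aᶜ = aᶜ}

/-- Regular closed subsets of a closure space. -/
def Reg {P : Type} (φ : ClosureOperator (Set P)) : Set (Set P) :=
  {a | a = φ (φ aᶜ)ᶜ}

/-- Algebraic closure operator. -/
def Algebraic {P : Type} (φ : ClosureOperator (Set P)) : Prop :=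
  ∀ x : Set P, φ x = ⋃ y ∈ {y : Set P | y ⊆ x ∧ y.Finite}, φ y

/-- Every minimal covering of `p` has join `p` for some order on `P`. -/
def JoinCover {P : Type} (φ : ClosureOperator (Set P)) : Prop :=
  ∃ _ : PartialOrder P, ∀ (p : P) (x : Set P), Minimal (fun y : Set P => p ∈ φ y) x → IsLUB x p

/-- A family of sets ordered by inclusion is a lattice. -/
def IsLat {P : Type} (S : Set (Set P)) : Prop :=
  ∀ a b : S, (∃ s : S, IsLUB {a, b} s) ∧ (∃ i : S, IsGLB {a, b} i)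

section Example

abbrev Q : Type := ℕ × Fin 8

/-- order inside one level: 0=p 1=a 2=b 3=c 4=d 5=z 6=w 7=t -/
def le0 (i j : Fin 8) : Bool :=
  i == j || j == 0 || (i == 5 && (j == 1 || j == 3 || j == 4)) || (i == 1 && (j == 3 || j == 4))
    || (i == 6 && (j == 2 || j == 3)) || (i == 7 && (j == 2 || j == 4))

def up (j : Fin 8) : Bool := j == 0 || j == 1 || j == 3 || j == 4

def leQ (u v : Q) : Prop := (u.1 = v.1 ∧ le0 u.2 v.2 = true) ∨ (v.1 < u.1 ∧ up v.2 = true)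

lemma le0_refl : ∀ i, le0 i i = true := by decide
lemma le0_trans : ∀ i j k, le0 i j = true → le0 j k = true → le0 i k = true := by decide
lemma le0_anti : ∀ i j, le0 i j = true → le0 j i = true → i = j := by decide
lemma up_le : ∀ i j, up i = true → le0 i j = true → up j = true := by decide

@[reducible] def po : PartialOrder Q where
  le := leQ
  lt u v := leQ u v ∧ ¬ leQ v u
  le_refl u := Or.inl ⟨rfl, le0_refl _⟩
  le_trans u v w h1 h2 := by
    rcases h1 with ⟨h1, h1'⟩ | ⟨h1, h1'⟩ <;> rcases h2 with ⟨h2, h2'⟩ | ⟨h2, h2'⟩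
    · exact Or.inl ⟨h1.trans h2, le0_trans _ _ _ h1' h2'⟩
    · exact Or.inr ⟨by omega, h2'⟩
    · exact Or.inr ⟨by omega, up_le _ _ h1' h2'⟩
    · exact Or.inr ⟨by omega, h2'⟩
  le_antisymm u v h1 h2 := by
    rcases h1 with ⟨h1, h1'⟩ | ⟨h1, h1'⟩ <;> rcases h2 with ⟨h2, h2'⟩ | ⟨h2, h2'⟩
    · exact Prod.ext h1 (le0_anti _ _ h1' h2')
    · omega
    · omega
    · omega

inductive Rule : Q → Q → Q → Prop
  | r1 (n : ℕ) : Rule (n, 1) (n, 2) (n, 0)
  | r2 (n : ℕ) : Rule (n, 3) (n, 4) (n, 0)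
  | r3 (n : ℕ) : Rule (n + 1, 1) (n, 5) (n, 1)
  | r4 (n : ℕ) : Rule (n + 1, 2) (n, 5) (n, 1)
  | r5 (n : ℕ) : Rule (n, 6) (n, 7) (n, 2)
  | r6 (n : ℕ) : Rule (n, 5) (n, 6) (n, 3)
  | r7 (n : ℕ) : Rule (n, 5) (n, 7) (n, 4)
  | r8 (n : ℕ) : Rule (n + 1, 3) (n, 6) (n, 3)
  | r9 (n : ℕ) : Rule (n + 1, 4) (n, 6) (n, 3)
  | r10 (n : ℕ) : Rule (n + 1, 3) (n, 7) (n, 4)
  | r11 (n : ℕ) : Rule (n + 1, 4) (n, 7) (n, 4)

inductive Cl (x : Set Q) : Q → Prop
  | base (p : Q) : p ∈ x → Cl x p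
  | step (q r p : Q) : Rule q r p → Cl x q → Cl x r → Cl x p

lemma Cl.mono {x y : Set Q} (h : x ⊆ y) {p : Q} (hp : Cl x p) : Cl y p := by
  induction hp with
  | base p hp => exact Cl.base p (h hp)
  | step q r p hr _ _ i1 i2 => exact Cl.step q r p hr i1 i2

def phi : ClosureOperator (Set Q) where
  toFun x := {p | Cl x p}
  monotone' _ _ h _ hp := Cl.mono h hp
  le_closure' _ p hp := Cl.base p hp
  idempotent' x := by
    ext p
    constructor
    · intro hp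
      have hp' : Cl {p | Cl x p} p := hp
      clear hp
      induction hp' with
      | base p hp => exact hp
      | step q r p hr _ _ i1 i2 => exact Cl.step q r p hr i1 i2
    · intro hp
      exact Cl.base p hp

lemma mem_phi {x : Set Q} {p : Q} : p ∈ phi x ↔ Cl x p := Iff.rfl

lemma same_ub : ∀ i j k : Fin 8, (i, j, k) ∈ [((1 : Fin 8), (2 : Fin 8), (0 : Fin 8)), (3, 4, 0), (6, 7, 2), (5, 6, 3), (5, 7, 4)] →
    le0 i k = true ∧ le0 j k = true ∧ ∀ l, le0 i l = true → le0 j l = true → le0 k l = true := by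
  decide

lemma next_ub : ∀ j k : Fin 8, (j, k) ∈ [((5 : Fin 8), (1 : Fin 8)), (6, 3), (7, 4)] →
    up k = true ∧ le0 j k = true ∧ ∀ l, up l = true → le0 j l = true → le0 k l = true := by
  decide

lemma same_rule (n : ℕ) (i j k : Fin 8)
    (h : (i, j, k) ∈ [((1 : Fin 8), (2 : Fin 8), (0 : Fin 8)), (3, 4, 0), (6, 7, 2), (5, 6, 3), (5, 7, 4)]) :
    leQ (n, i) (n, k) ∧ leQ (n, j) (n, k) ∧ ∀ s, leQ (n, i) s → leQ (n, j) s → leQ (n, k) s := by
  obtain ⟨h1, h2, h3⟩ := same_ub i j k h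
  refine ⟨Or.inl ⟨rfl, h1⟩, Or.inl ⟨rfl, h2⟩, ?_⟩
  rintro s (⟨a1, a2⟩ | ⟨a1, a2⟩) (⟨b1, b2⟩ | ⟨b1, b2⟩)
  · exact Or.inl ⟨a1, h3 _ a2 b2⟩
  · exact Or.inr ⟨b1, b2⟩
  · exact Or.inr ⟨a1, a2⟩
  · exact Or.inr ⟨a1, a2⟩

lemma next_rule (n : ℕ) (i j k : Fin 8)
    (h : (j, k) ∈ [((5 : Fin 8), (1 : Fin 8)), (6, 3), (7, 4)]) :
    leQ (n + 1, i) (n, k) ∧ leQ (n, j) (n, k) ∧
      ∀ s, leQ (n + 1, i) s → leQ (n, j) s → leQ (n, k) s := by
  obtain ⟨h1, h2, h3⟩ := next_ub j k h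
  refine ⟨Or.inr ⟨by simp, h1⟩, Or.inl ⟨rfl, h2⟩, ?_⟩
  rintro s (⟨a1, a2⟩ | ⟨a1, a2⟩) (⟨b1, b2⟩ | ⟨b1, b2⟩)
  · simp only at a1 b1; omega
  · exact Or.inr ⟨b1, b2⟩
  · exact Or.inl ⟨b1, h3 _ a2 b2⟩
  · exact Or.inr ⟨b1, b2⟩

lemma rule_lub {q r p : Q} (h : Rule q r p) :
    leQ q p ∧ leQ r p ∧ ∀ s, leQ q s → leQ r s → leQ p s := by
  cases h
  all_goals first
    | exact same_rule _ _ _ _ (by decide)
    | exact next_rule _ _ _ _ (by decide)

lemma fin_cover {x : Set Q} {p : Q} (hp : Cl x p) :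
    ∃ y, y ⊆ x ∧ y.Finite ∧ Cl y p ∧ (∀ u ∈ y, leQ u p) ∧
      ∀ s, (∀ u ∈ y, leQ u s) → leQ p s := by
  induction hp with
  | base p hp =>
    refine ⟨{p}, by simpa using hp, Set.finite_singleton p, Cl.base p rfl, ?_, ?_⟩
    · rintro u rfl
      exact po.le_refl _
    · intro s hs
      exact hs p rfl
  | step q r p hr _ _ i1 i2 =>
    obtain ⟨y1, a1, a2, a3, a4, a5⟩ := i1
    obtain ⟨y2, b1, b2, b3, b4, b5⟩ := i2
    obtain ⟨c1, c2, c3⟩ := rule_lub hr
    refine ⟨y1 ∪ y2, Set.union_subset a1 b1, a2.union b2,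
      Cl.step q r p hr (a3.mono Set.subset_union_left) (b3.mono Set.subset_union_right), ?_, ?_⟩
    · rintro u (hu | hu)
      · exact po.le_trans _ _ _ (a4 u hu) c1
      · exact po.le_trans _ _ _ (b4 u hu) c2
    · intro s hs
      exact c3 s (a5 s fun u hu => hs u (Or.inl hu)) (b5 s fun u hu => hs u (Or.inr hu))

lemma phi_empty : phi ∅ = ∅ := by
  ext p
  simp only [Set.mem_empty_iff_false, iff_false]
  intro hp
  have hp' : Cl ∅ p := hp
  clear hp
  induction hp' with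
  | base p hp => exact hp
  | step q r p _ _ _ i1 _ => exact i1

lemma phi_alg : Algebraic phi := by
  intro x
  ext p
  simp only [Set.mem_iUnion, Set.mem_ofPred_eq, exists_prop]
  constructor
  · intro hp
    obtain ⟨y, h1, h2, h3, -⟩ := fin_cover (mem_phi.1 hp)
    exact ⟨y, ⟨h1, h2⟩, h3⟩
  · rintro ⟨y, ⟨h1, -⟩, h3⟩
    exact Cl.mono h1 h3

lemma phi_join : JoinCover phi := by
  refine ⟨po, ?_⟩
  intro p x hx
  obtain ⟨y, h1, -, h3, h4, h5⟩ := fin_cover (mem_phi.1 hx.1)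
  have hxy : x ⊆ y := hx.2 (mem_phi.2 h3) h1
  have : y = x := Set.Subset.antisymm h1 hxy
  subst this
  exact ⟨fun u hu => h4 u hu, fun s hs => h5 s fun u hu => hs hu⟩

/-- closedness through the rules -/
lemma closed_iff (a : Set Q) : phi a = a ↔ ∀ q r p, Rule q r p → q ∈ a → r ∈ a → p ∈ a := by
  constructor
  · intro h q r p hr hq hr'
    rw [← h]
    exact Cl.step q r p hr (Cl.base q hq) (Cl.base r hr')
  · intro h
    ext p
    constructor
    · intro hp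
      have hp' : Cl a p := hp
      clear hp
      induction hp' with
      | base p hp => exact hp
      | step q r p hr _ _ i1 i2 => exact h q r p hr i1 i2
    · intro hp
      exact Cl.base p hp

lemma Cl.cases' {x : Set Q} {p : Q} (hp : Cl x p) :
    p ∈ x ∨ ∃ q r, Rule q r p ∧ Cl x q ∧ Cl x r := by
  cases hp with
  | base _ h => exact Or.inl h
  | step q r _ hr h1 h2 => exact Or.inr ⟨q, r, hr, h1, h2⟩

lemma inv1 {x : Set Q} {n : ℕ} (h : Cl x (n, 1)) : (n, 1) ∈ x ∨ Cl x (n, 5) := by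
  rcases h.cases' with h | ⟨q, r, hr, h1, h2⟩
  · exact Or.inl h
  · right
    generalize hp : ((n, 1) : Q) = p at hr
    cases hr <;> simp_all

lemma inv2 {x : Set Q} {n : ℕ} (h : Cl x (n, 2)) :
    (n, 2) ∈ x ∨ (Cl x (n, 6) ∧ Cl x (n, 7)) := by
  rcases h.cases' with h | ⟨q, r, hr, h1, h2⟩
  · exact Or.inl h
  · right
    generalize hp : ((n, 2) : Q) = p at hr
    cases hr <;> simp_all

lemma inv3 {x : Set Q} {n : ℕ} (h : Cl x (n, 3)) : (n, 3) ∈ x ∨ Cl x (n, 6) := by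
  rcases h.cases' with h | ⟨q, r, hr, h1, h2⟩
  · exact Or.inl h
  · right
    generalize hp : ((n, 3) : Q) = p at hr
    cases hr <;> simp_all

lemma inv4 {x : Set Q} {n : ℕ} (h : Cl x (n, 4)) : (n, 4) ∈ x ∨ Cl x (n, 7) := by
  rcases h.cases' with h | ⟨q, r, hr, h1, h2⟩
  · exact Or.inl h
  · right
    generalize hp : ((n, 4) : Q) = p at hr
    cases hr <;> simp_all

lemma inv0 {x : Set Q} {n : ℕ} (h : Cl x (n, 0)) :
    (n, 0) ∈ x ∨ (Cl x (n, 1) ∧ Cl x (n, 2)) ∨ (Cl x (n, 3) ∧ Cl x (n, 4)) := by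
  rcases h.cases' with h | ⟨q, r, hr, h1, h2⟩
  · exact Or.inl h
  · right
    generalize hp : ((n, 0) : Q) = p at hr
    cases hr <;> simp_all

/-- the closure of a union of two clopen sets is clopen -/
lemma join_clop {a b : Set Q} (ha : a ∈ Clop phi) (hb : b ∈ Clop phi) :
    phi (a ∪ b) ∈ Clop phi := by
  refine ⟨phi.idempotent _, ?_⟩
  -- every point of the union lies in a clopen set inside the closure
  have key : ∀ p ∈ a ∪ b, ∃ e : Set Q, p ∈ e ∧ (∀ u ∈ e, Cl (a ∪ b) u) ∧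
      (∀ q r p, Rule q r p → q ∈ e → r ∈ e → p ∈ e) ∧
      (∀ q r p, Rule q r p → q ∉ e → r ∉ e → p ∉ e) := by
    rintro p (hp | hp)
    · exact ⟨a, hp, fun u hu => Cl.base u (Or.inl hu), (closed_iff a).1 ha.1,
        (closed_iff aᶜ).1 ha.2⟩
    · exact ⟨b, hp, fun u hu => Cl.base u (Or.inr hu), (closed_iff b).1 hb.1,
        (closed_iff bᶜ).1 hb.2⟩
  have opn : ∀ q r p, Rule q r p → p ∈ a ∪ b → Cl (a ∪ b) q ∨ Cl (a ∪ b) r := by
    intro q r p hr hp
    obtain ⟨e, h1, h2, -, h4⟩ := key p hp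
    by_contra hc
    rw [not_or] at hc
    exact h4 q r p hr (fun h => hc.1 (h2 q h)) (fun h => hc.2 (h2 r h)) h1
  rw [closed_iff]
  intro q r p hr hq hr' hp
  have hq : ¬ Cl (a ∪ b) q := hq
  have hr' : ¬ Cl (a ∪ b) r := hr'
  have hp : Cl (a ∪ b) p := hp
  have hu : p ∉ a ∪ b := fun h => (opn q r p hr h).elim hq hr'
  -- case A : a b in the closure force c or d
  have caseA : ∀ n : ℕ, Cl (a ∪ b) (n, 1) → Cl (a ∪ b) (n, 2) →
      Cl (a ∪ b) (n, 3) ∨ Cl (a ∪ b) (n, 4) := by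
    intro n h1 h2
    have hwt : Cl (a ∪ b) (n, 6) ∨ Cl (a ∪ b) (n, 7) := by
      rcases inv2 h2 with h | h
      · exact opn _ _ _ (Rule.r5 n) h
      · exact Or.inl h.1
    have hz : Cl (a ∪ b) (n, 5) ∨ Cl (a ∪ b) (n + 1, 3) ∨ Cl (a ∪ b) (n + 1, 4) := by
      rcases inv1 h1 with h | h
      · obtain ⟨e, e1, e2, e3, e4⟩ := key _ h
        by_cases hz : ((n, 5) : Q) ∈ e
        · exact Or.inl (e2 _ hz)
        · have x1 : ((n + 1, 1) : Q) ∈ e := by
            by_contra hc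
            exact e4 _ _ _ (Rule.r3 n) hc hz e1
          have x2 : ((n + 1, 2) : Q) ∈ e := by
            by_contra hc
            exact e4 _ _ _ (Rule.r4 n) hc hz e1
          have x0 := e3 _ _ _ (Rule.r1 (n + 1)) x1 x2
          right
          by_contra hc
          rw [not_or] at hc
          exact e4 _ _ _ (Rule.r2 (n + 1)) (fun h => hc.1 (e2 _ h)) (fun h => hc.2 (e2 _ h)) x0
      · exact Or.inl h
    rcases hwt with hw | hw <;> rcases hz with hz | hz | hz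
    · exact Or.inl (Cl.step _ _ _ (Rule.r6 n) hz hw)
    · exact Or.inl (Cl.step _ _ _ (Rule.r8 n) hz hw)
    · exact Or.inl (Cl.step _ _ _ (Rule.r9 n) hz hw)
    · exact Or.inr (Cl.step _ _ _ (Rule.r7 n) hz hw)
    · exact Or.inr (Cl.step _ _ _ (Rule.r10 n) hz hw)
    · exact Or.inr (Cl.step _ _ _ (Rule.r11 n) hz hw)
  have aux : ∀ (n : ℕ) (e : Set Q), (∀ u ∈ e, Cl (a ∪ b) u) →
      (∀ q r p, Rule q r p → q ∈ e → r ∈ e → p ∈ e) →
      (∀ q r p, Rule q r p → q ∉ e → r ∉ e → p ∉ e) →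
      ((n, 5) : Q) ∈ e → ((n + 1, 3) : Q) ∈ e → ((n + 1, 4) : Q) ∈ e → Cl (a ∪ b) (n, 1) := by
    intro n e e2 e3 e4 x5 x3 x4
    have x0 := e3 _ _ _ (Rule.r2 (n + 1)) x3 x4
    by_cases x1 : ((n + 1, 1) : Q) ∈ e
    · exact e2 _ (e3 _ _ _ (Rule.r3 n) x1 x5)
    · by_cases x2 : ((n + 1, 2) : Q) ∈ e
      · exact e2 _ (e3 _ _ _ (Rule.r4 n) x2 x5)
      · exact absurd x0 (e4 _ _ _ (Rule.r1 (n + 1)) x1 x2)
  have caseB : ∀ n : ℕ, Cl (a ∪ b) (n, 3) → Cl (a ∪ b) (n, 4) →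
      Cl (a ∪ b) (n, 1) ∨ Cl (a ∪ b) (n, 2) := by
    intro n h3 h4
    by_cases hw : Cl (a ∪ b) (n, 6)
    · by_cases ht : Cl (a ∪ b) (n, 7)
      · exact Or.inr (Cl.step _ _ _ (Rule.r5 n) hw ht)
      · left
        obtain ⟨e, e1, e2, e3, e4⟩ := key _ ((inv4 h4).resolve_right ht)
        have ht' : ((n, 7) : Q) ∉ e := fun h => ht (e2 _ h)
        refine aux n e e2 e3 e4 ?_ ?_ ?_
        · by_contra hc
          exact e4 _ _ _ (Rule.r7 n) hc ht' e1
        · by_contra hc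
          exact e4 _ _ _ (Rule.r10 n) hc ht' e1
        · by_contra hc
          exact e4 _ _ _ (Rule.r11 n) hc ht' e1
    · left
      obtain ⟨e, e1, e2, e3, e4⟩ := key _ ((inv3 h3).resolve_right hw)
      have hw' : ((n, 6) : Q) ∉ e := fun h => hw (e2 _ h)
      refine aux n e e2 e3 e4 ?_ ?_ ?_
      · by_contra hc
        exact e4 _ _ _ (Rule.r6 n) hc hw' e1
      · by_contra hc
        exact e4 _ _ _ (Rule.r8 n) hc hw' e1
      · by_contra hc
        exact e4 _ _ _ (Rule.r9 n) hc hw' e1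
  cases hr with
  | r1 n =>
    rcases inv0 hp with h | h | h
    · exact hu h
    · exact hq h.1
    · exact (caseB n h.1 h.2).elim hq hr'
  | r2 n =>
    rcases inv0 hp with h | h | h
    · exact hu h
    · exact (caseA n h.1 h.2).elim hq hr'
    · exact hq h.1
  | r3 n => exact (inv1 hp).elim hu hr'
  | r4 n => exact (inv1 hp).elim hu hr'
  | r5 n => exact (inv2 hp).elim hu fun h => hq h.1
  | r6 n => exact (inv3 hp).elim hu hr'
  | r7 n => exact (inv4 hp).elim hu hr'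
  | r8 n => exact (inv3 hp).elim hu hr'
  | r9 n => exact (inv3 hp).elim hu hr'
  | r10 n => exact (inv4 hp).elim hu hr'
  | r11 n => exact (inv4 hp).elim hu hr'

lemma compl_clop {a : Set Q} (ha : a ∈ Clop phi) : aᶜ ∈ Clop phi :=
  ⟨ha.2, by rw [compl_compl]; exact ha.1⟩

lemma clop_lat : IsLat (Clop phi) := by
  intro a b
  constructor
  · refine ⟨⟨phi (a.1 ∪ b.1), join_clop a.2 b.2⟩, ?_, ?_⟩
    · rintro c (rfl | rfl)
      · exact fun u hu => Cl.base u (Or.inl hu)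
      · exact fun u hu => Cl.base u (Or.inr hu)
    · intro c hc
      have h1 : a.1 ⊆ c.1 := hc (Or.inl rfl)
      have h2 : b.1 ⊆ c.1 := hc (Or.inr rfl)
      show phi (a.1 ∪ b.1) ⊆ c.1
      rw [← c.2.1]
      exact phi.monotone (Set.union_subset h1 h2)
  · refine ⟨⟨(phi (a.1ᶜ ∪ b.1ᶜ))ᶜ, compl_clop (join_clop (compl_clop a.2) (compl_clop b.2))⟩, ?_, ?_⟩
    · rintro c (rfl | rfl)
      · intro u hu
        by_contra hc
        exact hu (Cl.base u (Or.inl hc))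
      · intro u hu
        by_contra hc
        exact hu (Cl.base u (Or.inr hc))
    · intro c hc
      have h1 : c.1 ⊆ a.1 := hc (Or.inl rfl)
      have h2 : c.1 ⊆ b.1 := hc (Or.inr rfl)
      show c.1 ⊆ (phi (a.1ᶜ ∪ b.1ᶜ))ᶜ
      rw [Set.subset_compl_comm, ← c.2.2]
      exact phi.monotone (Set.union_subset (Set.compl_subset_compl.2 h1) (Set.compl_subset_compl.2 h2))

def uu : Set Q := {p | p.2 = 1 ∨ p.2 = 2 ∨ p.2 = 6}
def kk : Set Q := {p | p.2 = 0 ∨ p.2 = 1 ∨ p.2 = 2 ∨ p.2 = 6}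

lemma kk_closed : phi kk = kk := by
  rw [closed_iff]
  intro q r p hr hq hr'
  cases hr <;> simp_all [kk]

lemma uu_open : phi uuᶜ = uuᶜ := by
  rw [closed_iff]
  intro q r p hr hq hr'
  cases hr <;> simp_all [uu]

lemma kk_reg : kk ∈ Reg phi := by
  show kk = phi (phi kkᶜ)ᶜ
  apply Set.Subset.antisymm
  · have h1 : uu ⊆ (phi kkᶜ)ᶜ := by
      rw [Set.subset_compl_comm, ← uu_open]
      apply phi.monotone
      apply Set.compl_subset_compl.2
      intro p hp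
      exact Or.inr hp
    refine Set.Subset.trans ?_ (phi.monotone h1)
    rintro ⟨n, i⟩ (hp | hp)
    · simp only at hp
      subst hp
      exact Cl.step _ _ _ (Rule.r1 n) (Cl.base _ (Or.inl rfl)) (Cl.base _ (Or.inr (Or.inl rfl)))
    · exact Cl.base _ hp
  · conv_rhs => rw [← kk_closed]
    apply phi.monotone
    intro p hp
    by_contra hc
    exact hp (Cl.base p hc)

lemma kk_not : kk ∉ Clop phi := by
  intro h
  have := (closed_iff kkᶜ).1 h.2 _ _ _ (Rule.r2 0) (by simp [kk]) (by simp [kk])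
  exact this (Or.inl rfl)

end Example

theorem result : ¬ ∀ (P : Type) (φ : ClosureOperator (Set P)), φ ∅ = ∅ → Algebraic φ →
    JoinCover φ → (IsLat (Clop φ) ↔ Clop φ = Reg φ) := by
  intro h
  have := (h Q phi phi_empty phi_alg phi_join).1 clop_lat
  exact kk_not (this ▸ kk_reg)

end Pool.Agent.Results.MP_df2171_co.No
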